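import Pool.Agent.V8H43.OVT.Code
import Pool.Agent.N452.TF.ThreeSum

set_option autoImplicit false

/-! # OV and circuits over formulas of bilinear maps -/

namespace Pool.Agent.V8H43.OVT

open Finset Pool.Agent.TH697.Form Pool.Agent.TH697.Row
open Pool.Agent.TH457.Ary.ThreeSum (logb_n logb_q)
open Pool.Agent.N452.TF
open Pool.Agent.N452.TF.Xor (pairs)

variable {n d c w D : ℕ}

/-- the arithmetic -/
theorem arith {n g d c w D N L l s : ℝ} (hn : 1000 ≤ n) (hg : 8 ≤ g) (hd : 40 ≤ d) (hc : 1 ≤ c)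
    (hw : 1 ≤ w) (hD : 1 ≤ D) (hN : n * (d / 2) ≤ N) (hl0 : 0 ≤ l) (hl : l ≤ 9 / 8 * g)
    (hL : L ≤ 4 / 3 * c * g) (hs : 0 ≤ s)
    (h : n * ((49 / 600 - 0) * N - 1) ≤
      (3 + (2 * D ^ 2 + 8 * D + 7) * (6 * l) + 2 * (w - 1) * L) * s) :
    n ^ 2 * d ≤ 3000 * (w * c + D ^ 2) * g * s := by
  have h0 : 1000 * d ≤ n * d := mul_le_mul_of_nonneg_right hn (by linarith)
  have h1 : n * d / 25 ≤ (49 / 600 - 0) * N - 1 := by linarith
  have h2 : n * (n * d / 25) ≤ n * ((49 / 600 - 0) * N - 1) :=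
    mul_le_mul_of_nonneg_left h1 (by linarith)
  have hd2 : 1 ≤ D ^ 2 := by nlinarith
  have h3 : 3 + (2 * D ^ 2 + 8 * D + 7) * (6 * l) + 2 * (w - 1) * L ≤
      120 * (w * c + D ^ 2) * g := by
    have h4 : (w - 1) * L ≤ (w - 1) * (4 / 3 * c * g) := mul_le_mul_of_nonneg_left hL (by linarith)
    have h5 : 2 * D ^ 2 + 8 * D + 7 ≤ 17 * D ^ 2 := by nlinarith
    have h6 : (2 * D ^ 2 + 8 * D + 7) * (6 * l) ≤ 17 * D ^ 2 * (6 * (9 / 8 * g)) := by
      apply mul_le_mul h5 (by linarith) (by linarith) (by positivity)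
    have h7 : g ≤ D ^ 2 * g := by nlinarith
    have h8 : 0 ≤ c * g := by positivity
    have h9 : 0 ≤ w * (c * g) := by positivity
    have h10 : (w - 1) * (4 / 3 * c * g) ≤ 4 / 3 * (w * (c * g)) := by nlinarith
    nlinarith
  have h4 := mul_le_mul_of_nonneg_right h3 hs
  have e1 : n * (n * d / 25) = n ^ 2 * d / 25 := by ring
  have e2 : 120 * (w * c + D ^ 2) * g * s = 3000 * (w * c + D ^ 2) * g * s / 25 := by ring
  rw [e1] at h2
  rw [e2] at h4
  linarith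

theorem bound (hn : 1000 ≤ n) (hd : 4 * (Nat.log 2 n + 1) ≤ d) (hdn : d ≤ n) (hc : 1 ≤ c)
    (hw : 1 ≤ w) (hD : 1 ≤ D) {Ω : Type} [Fintype Ω] (μ : Ω → ℝ) (hμ : IsProb μ) (s : ℕ)
    (C : Ω → Circuit (Option (Fin n)) (Item n d) w ((2 * n) ^ c) D)
    (hs : ∀ ω, (C ω).circ.cost (pairs n) ≤ s)
    (hF : ApproximatesOn μ (fun ω => (C ω).eval) (Valid n d) (ov n d)) :
    (n : ℝ) ^ 2 * d ≤ 3000 * (w * c + (D : ℝ) ^ 2) * Nat.log 2 n * s := by
  classical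
  have hw' : (1 : ℝ) ≤ w := by exact_mod_cast hw
  have hc' : (1 : ℝ) ≤ c := by exact_mod_cast hc
  have hD' : (1 : ℝ) ≤ D := by exact_mod_cast hD
  have hs0 : (0 : ℝ) ≤ s := Nat.cast_nonneg s
  have hlog : 9 ≤ Nat.log 2 n := by
    have := Nat.log_mono_right (b := 2) (show 512 ≤ n by omega)
    rwa [show Nat.log 2 512 = 9 by decide +kernel] at this
  have hlog' : (9 : ℝ) ≤ Nat.log 2 n := by exact_mod_cast hlog
  obtain ⟨l, hl⟩ : ∃ l, l = Nat.log 2 n + 1 := ⟨_, rfl⟩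
  have hln : n ≤ 2 ^ l := by
    rw [hl]
    exact (Nat.lt_pow_succ_log_self (by norm_num) n).le
  by_cases hsn : n ^ 2 * d ≤ s
  · have h1 : (n : ℝ) ^ 2 * d ≤ s := by exact_mod_cast hsn
    have h2 : (1 : ℝ) ≤ w * c := by nlinarith
    have h3 : (1 : ℝ) ≤ 3000 * (w * c + (D : ℝ) ^ 2) := by nlinarith
    have h4 : (1 : ℝ) ≤ 3000 * (w * c + (D : ℝ) ^ 2) * Nat.log 2 n := by nlinarith
    nlinarith
  have hM : 4 * n ^ 2 * (3 * s + 1) + 2 + s ≤ n ^ 6 := by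
    have h1 : s < n ^ 3 := by
      have : n ^ 2 * d ≤ n ^ 2 * n := Nat.mul_le_mul_left _ hdn
      have e : n ^ 2 * n = n ^ 3 := by ring
      omega
    have h2 : 4 * n ^ 2 * (3 * s + 1) ≤ 4 * n ^ 2 * (3 * n ^ 3) := Nat.mul_le_mul_left _ (by omega)
    have h3 : 4 * n ^ 2 * (3 * n ^ 3) = 12 * n ^ 5 := by ring
    have h4 : n ^ 3 ≤ n ^ 5 := Nat.pow_le_pow_right (by omega) (by norm_num)
    have h5 : 16 * n ^ 5 ≤ n ^ 6 := by
      calc 16 * n ^ 5 ≤ n * n ^ 5 := Nat.mul_le_mul_right _ (by omega)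
        _ = n ^ 6 := by ring
    have h6 : 1 ≤ n ^ 5 := Nat.one_le_pow _ _ (by omega)
    omega
  have h := circuit_lower μ hμ s C (Valid n d) (ov n d) hF
    (Nat.one_le_pow _ _ (by omega)) hw (n ^ 2) (n ^ 6) hM 0 (pairs n) hs
    (T := Fin n × Fin (d - 2 * l)) (by
      intro a ha
      unfold pairs at ha
      rw [mem_map] at ha
      obtain ⟨i, -, rfl⟩ := ha
      exact asks hln (by omega) (by omega) hdn i)
  unfold pairs at h
  rw [card_map, card_univ, Fintype.card_fin, Nat.cast_pow n 6] at h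
  rw [Real.logb_pow] at h
  push_cast at h
  have hd40 : (40 : ℝ) ≤ d := by
    have : 40 ≤ d := by omega
    exact_mod_cast this
  have hN : (n : ℝ) * (d / 2) ≤ ((Fintype.card (Fin n × Fin (d - 2 * l)) : ℕ) : ℝ) := by
    rw [Fintype.card_prod, Fintype.card_fin, Fintype.card_fin]
    push_cast
    apply mul_le_mul_of_nonneg_left _ (Nat.cast_nonneg n)
    have h1 : d ≤ 2 * (d - 2 * l) := by omega
    have h2 : (d : ℝ) ≤ 2 * ((d - 2 * l : ℕ) : ℝ) := by exact_mod_cast h1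
    linarith
  refine arith (l := Real.logb 2 n) (L := Real.logb 2 (((2 * n) ^ c : ℕ) : ℝ))
    (g := Nat.log 2 n) (N := ((Fintype.card (Fin n × Fin (d - 2 * l)) : ℕ) : ℝ))
    (by exact_mod_cast hn) (by linarith) hd40 hc' hw' hD' hN
    (Real.logb_nonneg (by norm_num) (by exact_mod_cast (by omega : 1 ≤ n))) ?_
    (logb_q (by omega) (by omega)) hs0 ?_
  · have h1 := logb_n (n := n) (by omega)
    linarith
  · push_cast
    exact h

end Pool.Agent.V8H43.OVT
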