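import Pool.Agent.V8H43.OVT.Defs
import Pool.Agent.Y638.RF.Lower

set_option autoImplicit false

/-! # A vector of `A` can ask for each of the bits which are stored in the list `B` -/

namespace Pool.Agent.V8H43.OVT

open Finset Pool.Agent.Y638.RF

variable {n d l : ℕ}

/-- the vector which asks for the bit `t.2` of the vector with the address `t.1` -/
def ask (n d l : ℕ) (t : Fin n × Fin (d - 2 * l)) : Fin d → Bool := fun k =>
  if k.1 < l then t.1.1.testBit k.1 else
    if k.1 < 2 * l then !(t.1.1.testBit (k.1 - l)) else decide (k.1 - 2 * l = t.2.1)

/-- the vector of `B` with the address `j` -/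
def stored (z : Fin n × Fin (d - 2 * l) → Bool) (j : Fin n) : Fin d → Bool := fun k =>
  if k.1 < l then !(j.1.testBit k.1) else
    if h : k.1 < 2 * l then j.1.testBit (k.1 - l) else
      !(z (j, ⟨k.1 - 2 * l, by have := k.2; omega⟩))

/-- the other vectors of `A` -/
def filler (n d l : ℕ) (i : Fin n) : Fin d → Bool := fun k =>
  if k.1 < 2 * l then true else i.1.testBit (k.1 - 2 * l)

/-- the input -/
def enc (z : Fin n × Fin (d - 2 * l) → Bool) : ∀ i, Item n d i
  | none => fun j => stored z j
  | some i => filler n d l i

theorem orth_iff (hl : n ≤ 2 ^ l) (hd : 2 * l ≤ d) (z : Fin n × Fin (d - 2 * l) → Bool)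
    (t : Fin n × Fin (d - 2 * l)) (j : Fin n) :
    (∀ k : Fin d, ¬ (ask n d l t k = true ∧ stored z j k = true)) ↔ j = t.1 ∧ z t = true := by
  constructor
  · intro h
    have hj : j = t.1 := by
      apply Fin.ext
      apply Nat.eq_of_testBit_eq
      intro k
      by_cases hk : k < l
      · by_contra hne
        cases h1 : t.1.1.testBit k
        · have h2 : j.1.testBit k = true := by
            cases h3 : j.1.testBit k
            · exact absurd (h3.trans h1.symm) hne
            · rfl
          apply h ⟨l + k, by omega⟩
          have e : l + k - l = k := by omega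
          constructor
          · unfold ask
            simp only [show ¬ (l + k < l) by omega, if_false, show l + k < 2 * l by omega, if_true, e,
              h1, Bool.not_false]
          · unfold stored
            simp only [show ¬ (l + k < l) by omega, if_false, show l + k < 2 * l by omega, dite_true, e,
              h2]
        · have h2 : j.1.testBit k = false := by
            cases h3 : j.1.testBit k
            · rfl
            · exact absurd (h3.trans h1.symm) hne
          apply h ⟨k, by omega⟩
          constructor
          · unfold ask
            simp only [hk, if_true, h1]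
          · unfold stored
            simp only [hk, if_true, h2, Bool.not_false]
      · have h2 : 2 ^ l ≤ 2 ^ k := Nat.pow_le_pow_right (by norm_num) (by omega)
        rw [Nat.testBit_lt_two_pow (by have := j.2; omega),
          Nat.testBit_lt_two_pow (by have := t.1.2; omega)]
    refine ⟨hj, ?_⟩
    by_contra hz
    have hz' : z t = false := by simpa using hz
    apply h ⟨2 * l + t.2.1, by have := t.2.2; omega⟩
    have e : 2 * l + t.2.1 - 2 * l = t.2.1 := by omega
    constructor
    · unfold ask
      simp only [show ¬ (2 * l + t.2.1 < l) by omega, show ¬ (2 * l + t.2.1 < 2 * l) by omega, if_false,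
        e, decide_true]
    · unfold stored
      simp only [show ¬ (2 * l + t.2.1 < l) by omega, show ¬ (2 * l + t.2.1 < 2 * l) by omega, if_false,
        dite_false, e, hj, hz', Bool.not_false]
  · rintro ⟨hj, hz⟩ k ⟨h1, h2⟩
    unfold ask at h1
    unfold stored at h2
    by_cases hk : k.1 < l
    · simp only [hk, if_true] at h1 h2
      rw [hj, h1] at h2
      simp at h2
    · by_cases hk2 : k.1 < 2 * l
      · simp only [hk, if_false, hk2, if_true, dite_true] at h1 h2
        rw [hj] at h2
        rw [h2] at h1
        simp at h1
      · simp only [hk, if_false, hk2, dite_false] at h1 h2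
        have h3 : k.1 - 2 * l = t.2.1 := by simpa using h1
        have e : (j, (⟨k.1 - 2 * l, by have := k.2; omega⟩ : Fin (d - 2 * l))) = t := by
          apply Prod.ext hj
          apply Fin.ext
          exact h3
        rw [e, hz] at h2
        simp at h2

theorem filler_not (hl : 1 ≤ l) (hd : 2 * l ≤ d) (z : Fin n × Fin (d - 2 * l) → Bool)
    (i j : Fin n) :
    ¬ (∀ k : Fin d, ¬ (filler n d l i k = true ∧ stored z j k = true)) := by
  intro h
  cases h1 : j.1.testBit 0
  · apply h ⟨0, by omega⟩
    constructor
    · unfold filler
      simp only [show 0 < 2 * l by omega, if_true]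
    · unfold stored
      simp only [show 0 < l by omega, if_true, h1, Bool.not_false]
  · apply h ⟨l, by omega⟩
    constructor
    · unfold filler
      simp only [show l < 2 * l by omega, if_true]
    · unfold stored
      simp only [show ¬ (l < l) by omega, if_false, show l < 2 * l by omega, dite_true, Nat.sub_self, h1]

theorem stored_inj (hl : n ≤ 2 ^ l) (hd : 2 * l ≤ d) (z : Fin n × Fin (d - 2 * l) → Bool) :
    Function.Injective (stored z) := by
  intro i j h
  apply Fin.ext
  apply Nat.eq_of_testBit_eq
  intro k
  by_cases hk : k < l
  · have h1 := congrFun h ⟨k, by omega⟩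
    unfold stored at h1
    simp only [hk, if_true] at h1
    simpa using h1
  · have h2 : 2 ^ l ≤ 2 ^ k := Nat.pow_le_pow_right (by norm_num) (by omega)
    rw [Nat.testBit_lt_two_pow (by have := i.2; omega), Nat.testBit_lt_two_pow (by have := j.2; omega)]

theorem filler_inj (hl : n ≤ 2 ^ l) (hd : 3 * l ≤ d) : Function.Injective (filler n d l) := by
  intro i j h
  apply Fin.ext
  apply Nat.eq_of_testBit_eq
  intro k
  by_cases hk : k < l
  · have h1 := congrFun h ⟨2 * l + k, by omega⟩
    unfold filler at h1
    simp only [show ¬ (2 * l + k < 2 * l) by omega, if_false, show 2 * l + k - 2 * l = k by omega] at h1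
    exact h1
  · have h2 : 2 ^ l ≤ 2 ^ k := Nat.pow_le_pow_right (by norm_num) (by omega)
    rw [Nat.testBit_lt_two_pow (by have := i.2; omega), Nat.testBit_lt_two_pow (by have := j.2; omega)]

theorem filler_ne (hl : 1 ≤ l) (hd : 2 * l ≤ d) (i : Fin n) (t : Fin n × Fin (d - 2 * l)) :
    filler n d l i ≠ ask n d l t := by
  intro h
  have h1 := congrFun h ⟨0, by omega⟩
  have h2 := congrFun h ⟨l, by omega⟩
  unfold filler ask at h1 h2
  simp only [show 0 < 2 * l by omega, show 0 < l by omega, if_true] at h1
  simp only [show l < 2 * l by omega, show ¬ (l < l) by omega, if_true, if_false, Nat.sub_self] at h2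
  rw [← h1] at h2
  simp at h2

theorem asks (hl : n ≤ 2 ^ l) (hl1 : 1 ≤ l) (hd : 3 * l ≤ d) (hdn : d ≤ n) (i : Fin n) :
    Asks (Fin n × Fin (d - 2 * l)) (n ^ 2) 0 (Valid n d) (ov n d) (some i) := by
  classical
  refine ⟨(univ : Finset (Fin n × Fin (d - 2 * l))).image (fun t => ask n d l t), fun _ => 0,
    fun t _ => ask n d l t, enc, ?_, ?_, ?_, ?_, ?_⟩
  · refine card_image_le.trans ?_
    rw [card_univ, Fintype.card_prod, Fintype.card_fin, Fintype.card_fin, pow_two]
    exact Nat.mul_le_mul_left _ (by omega)
  · intro t z
    exact mem_image_of_mem _ (mem_univ t)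
  · intro t z z' _
    rfl
  · intro t z
    constructor
    · intro a b hab
      change (Function.update (enc z) (some i) (ask n d l t) (some a) : Fin d → Bool) =
        Function.update (enc z) (some i) (ask n d l t) (some b) at hab
      by_cases ha : a = i
      · by_cases hb : b = i
        · rw [ha, hb]
        · exfalso
          rw [ha, Function.update_self, Function.update_of_ne (fun h => hb (Option.some.inj h))] at hab
          exact filler_ne hl1 (by omega) b t hab.symm
      · by_cases hb : b = i
        · exfalso
          rw [hb, Function.update_self, Function.update_of_ne (fun h => ha (Option.some.inj h))] at hab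
          exact filler_ne hl1 (by omega) a t hab
        · rw [Function.update_of_ne (fun h => ha (Option.some.inj h)),
            Function.update_of_ne (fun h => hb (Option.some.inj h))] at hab
          exact filler_inj hl hd hab
    · rw [Function.update_of_ne (by simp)]
      exact stored_inj hl (by omega) z
  · have h : ∀ (t : Fin n × Fin (d - 2 * l)) (z : Fin n × Fin (d - 2 * l) → Bool),
        ov n d (Function.update (enc z) (some i) (ask n d l t)) = z t := by
      intro t z
      unfold ov
      rw [Function.update_of_ne (by simp)]
      have e : (∃ a j : Fin n, ∀ k : Fin d,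
          ¬ ((Function.update (enc z) (some i) (ask n d l t) (some a) : Fin d → Bool) k = true ∧
          (enc z none : Fin n → Fin d → Bool) j k = true)) ↔ z t = true := by
        constructor
        · rintro ⟨a, j, hk⟩
          by_cases ha : a = i
          · rw [ha, Function.update_self] at hk
            exact ((orth_iff hl (by omega) z t j).1 hk).2
          · rw [Function.update_of_ne (fun h => ha (Option.some.inj h))] at hk
            exact absurd hk (filler_not hl1 (by omega) z a j)
        · intro hz
          refine ⟨i, t.1, ?_⟩
          rw [Function.update_self]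
          exact (orth_iff hl (by omega) z t t.1).2 ⟨rfl, hz⟩
      cases hz : z t
      · refine decide_eq_false (fun h => ?_)
        have h2 := e.1 h
        rw [hz] at h2
        exact Bool.false_ne_true h2
      · exact decide_eq_true (e.2 hz)
    simp only [h, ne_eq, not_true_eq_false, filter_false, card_empty]
    simp

end Pool.Agent.V8H43.OVT
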