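import Mathlib

set_option autoImplicit false

/-! # Orthogonal vectors as a function of items -/

namespace Pool.Agent.V8H43.OVT

/-- The items of the input: the list `B` of all vectors of the second set is item `none`, and the
`i`-th vector of the first set `A` is item `some i`. -/
abbrev Item (n d : ℕ) : Option (Fin n) → Type
  | none => Fin n → Fin d → Bool
  | some _ => Fin d → Bool

/-- The `n` vectors of `A` are distinct, and so are the `n` vectors of `B`. -/
def Valid (n d : ℕ) (x : ∀ i, Item n d i) : Prop :=
  Function.Injective (fun i : Fin n => (x (some i) : Fin d → Bool)) ∧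
    Function.Injective (x none : Fin n → Fin d → Bool)

/-- Are a vector `u` of `A` and a vector `v` of `B` orthogonal? -/
def ov (n d : ℕ) (x : ∀ i, Item n d i) : Bool :=
  decide (∃ i j : Fin n, ∀ k : Fin d, ¬ ((x (some i) : Fin d → Bool) k = true ∧
    (x none : Fin n → Fin d → Bool) j k = true))

end Pool.Agent.V8H43.OVT
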